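import Pool.Agent.X256.SC.Elim

/-!
# André's supercharacter theory is the coarsest one keeping the single-box characters irreducible
-/

open scoped BigOperators Classical
open Representation Pool.Agent.Helper884.IC Pool.Agent.X256.CT Pool.Agent.X256.SC

noncomputable section

namespace Pool.Agent.Results.MP_1f99fc_al.Coarsest

variable {n : ℕ} {F : Type} [Field F] [Fintype F]

/-- the superclass of `x`: all `g` with `g - 1 ∈ U (x - 1) U` -/
def superclass (x : U n F) : Finset (U n F) :=
  Finset.univ.filter (fun g => ∃ u v : U n F, mat g - 1 = mat u * (mat x - 1) * mat v)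

/-- the two-sided orbit of a functional on the strictly upper triangular matrices -/
def orbit (l : Module.Dual F (nil n F)) : Finset (Module.Dual F (nil n F)) :=
  Finset.univ.filter (fun k => ∃ u v : U n F, ∀ y : nil n F, k y = l (biact u v y))

/-- the orbit sum `g ↦ ∑_{k ∈ U l U} θ(k(g - 1))` -/
def orbitSum (θ : AddChar F ℂ) (l : Module.Dual F (nil n F)) (g : U n F) : ℂ :=
  ∑ k ∈ orbit l, θ (k (subOne g))

/-- the theory `T` contains all single-box supercharacters as irreducible characters -/
def ContainsBoxes (θ : AddChar F ℂ) (T : SCT (U n F)) : Prop :=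
  ∀ i j : Fin n, i < j → ∀ a : F, a ≠ 0 → ∃ chi : U n F → ℂ, ({chi} : Finset (U n F → ℂ)) ∈ T.X ∧
    ∃ c : ℝ, 0 < c ∧ ∀ g, chi g = (c : ℂ) * orbitSum θ (box i j a) g

/-- `A` is André's supercharacter theory: its superclasses are the sets `{g : g - 1 ∈ U (x - 1) U}`
and its supercharacters are the orbit sums -/
def IsAndre (θ : AddChar F ℂ) (A : SCT (U n F)) : Prop :=
  A.K = Finset.univ.image superclass ∧
  (∀ l : Module.Dual F (nil n F), ∃ S ∈ A.X, ∀ g,
    ∑ psi ∈ S, psi 1 * psi g = orbitSum θ l g) ∧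
  (∀ S ∈ A.X, ∃ l : Module.Dual F (nil n F), ∀ g,
    ∑ psi ∈ S, psi 1 * psi g = orbitSum θ l g)

lemma orbit_eq (l : Module.Dual F (nil n F)) : orbit l = (uag n F).orb l := by
  ext k
  rw [(uag n F).mem_orb]
  simp only [orbit, Finset.mem_filter, Finset.mem_univ, true_and]
  constructor
  · rintro ⟨u, v, h⟩
    exact ⟨u, v, LinearMap.ext h⟩
  · rintro ⟨u, v, rfl⟩
    exact ⟨u, v, fun y => rfl⟩

lemma orbitSum_eq (θ : AddChar F ℂ) (l : Module.Dual F (nil n F)) (g : U n F) :
    orbitSum θ l g = (uag n F).orbSum θ l g := by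
  unfold orbitSum AG.orbSum
  rw [orbit_eq]
  rfl

/-- **Main theorem.** For every `n` and every finite field `F`, André's theory is a supercharacter
theory of `U_n(F)`, it contains all single-box supercharacters as irreducible characters, and every
supercharacter theory containing them is finer than it. -/
theorem result (n : ℕ) (F : Type) [Field F] [Fintype F] (θ : AddChar F ℂ) (hθ : θ ≠ 1) :
    ∃ A : SCT (U n F), IsAndre θ A ∧ ContainsBoxes θ A ∧
      ∀ T : SCT (U n F), ContainsBoxes θ T → ∀ C ∈ T.K, ∃ D ∈ A.K, C ⊆ D := by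
  refine ⟨(uag n F).theory θ hθ, ⟨?_, ?_, ?_⟩, ?_, ?_⟩
  · ext S
    rw [(uag n F).mem_theory_K θ hθ]
    simp only [Finset.mem_image, Finset.mem_univ, true_and]
    have h : ∀ x : U n F, Finset.univ.filter (fun h => (uag n F).rel x h) = superclass x := by
      intro x
      ext g
      simp only [superclass, Finset.mem_filter, Finset.mem_univ, true_and]
      constructor
      · rintro ⟨u, v, h⟩
        exact ⟨u, v, congrArg Subtype.val h⟩
      · rintro ⟨u, v, h⟩
        exact ⟨u, v, Subtype.ext h⟩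
    constructor
    · rintro ⟨x, rfl⟩
      exact ⟨x, (h x).symm⟩
    · rintro ⟨x, rfl⟩
      exact ⟨x, (h x).symm⟩
  · intro l
    refine ⟨(uag n F).blk θ l, ?_, ?_⟩
    · exact ((uag n F).mem_theory_X θ hθ _).mpr ⟨l, rfl⟩
    · intro g
      rw [(uag n F).sum_blk θ hθ l g, orbitSum_eq]
  · intro S hS
    obtain ⟨l, rfl⟩ := ((uag n F).mem_theory_X θ hθ _).mp hS
    refine ⟨l, fun g => ?_⟩
    rw [(uag n F).sum_blk θ hθ l g, orbitSum_eq]
  · intro i j hij a ha
    obtain ⟨chi, h1, c, hc, h2⟩ := (uag n F).blk_singleton θ hθ (box i j a)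
      (fun k hk => box_trans i j hij a k hk)
    refine ⟨chi, ?_, c, hc, ?_⟩
    · exact ((uag n F).mem_theory_X θ hθ _).mpr ⟨_, h1⟩
    · intro g
      rw [h2 g, orbitSum_eq]
  · intro T hT
    intro C hC
    obtain ⟨x, hx⟩ := (T.isPart_K.1 C hC).1
    refine ⟨_, ((uag n F).mem_theory_K θ hθ _).mpr ⟨x, rfl⟩, ?_⟩
    intro y hy
    · simp only [Finset.mem_filter, Finset.mem_univ, true_and]
      have key : ∀ i j : Fin n, i < j → ∀ a : F, a ≠ 0 →
          Ssum θ i j a (mat x - 1) = Ssum θ i j a (mat y - 1) := by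
        intro i j hij a ha
        obtain ⟨chi, h1, c, hc, h2⟩ := hT i j hij a ha
        have hirr : IsIrrChar chi :=
          (T.isPart_X.1 _ h1).2 chi (Finset.mem_singleton_self chi)
        have h3 := T.const {chi} h1 C hC x hx y hy
        rw [Finset.sum_singleton, Finset.sum_singleton] at h3
        have h4 : chi x = chi y := mul_left_cancel₀ (Pool.Agent.Y63.AWC.one_ne hirr) h3
        rw [h2, h2] at h4
        have h5 : orbitSum θ (box i j a) x = orbitSum θ (box i j a) y := by
          refine mul_left_cancel₀ ?_ h4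
          exact_mod_cast hc.ne'
        rw [orbitSum_eq, orbitSum_eq] at h5
        exact Ssum_eq_of_orbSum θ i j a x y h5
      obtain ⟨u, v, huv⟩ := orbit_of_Ssum hθ (mat_isUT x).sub_one (mat_isUT y).sub_one key
      exact ⟨u, v, Subtype.ext huv⟩

end Pool.Agent.Results.MP_1f99fc_al.Coarsest
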